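import Pool.Agent.H132.SQ.G10
import Pool.Agent.H132.SQ.GR1b
import Pool.Agent.H132.SQ.GR2
import Pool.Agent.H132.SQ.GR3

/-!
# The limit law of the area of the stretched self-avoiding polygons of the square lattice

The polygons of perimeter `2 n` in `ℤ²` are weighted by `y ^ extent`, where the extent is the width
in the direction of the first axis. For `y ≥ 10 ^ 96` the area divided by its mean converges in
distribution, with all moments, to one law, which does not depend on `y`: the law of the area under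
the Brownian excursion divided by its mean (the Airy distribution), identified by its moments.
-/

set_option autoImplicit false

namespace Pool.Agent.Results.MP_f6626d_co.StretchedAreaLaw

open Filter Topology Finset MeasureTheory
open scoped Classical

noncomputable section

/-- the four unit steps of the square lattice -/
inductive Step
  | east | west | north | south
  deriving DecidableEq

instance : Fintype Step where
  elems := {.east, .west, .north, .south}
  complete := by intro x; cases x <;> decide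

/-- the displacement of a step -/
def vec : Step → ℤ × ℤ
  | .east => (1, 0)
  | .west => (-1, 0)
  | .north => (0, 1)
  | .south => (0, -1)

/-- the end point of the walk from `0` with the steps in the list `w` (the last entry of `w` is
the first step) -/
def pos : List Step → ℤ × ℤ
  | [] => 0
  | a :: w => pos w + vec a

/-- the vertices of the walk, the last one first -/
def path : List Step → List (ℤ × ℤ)
  | [] => [0]
  | a :: w => (pos w + vec a) :: path w

/-- the walk is closed, has at least four steps, and visits no vertex twice except for the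
starting point -/
def Polygon (w : List Step) : Prop := 4 ≤ w.length ∧ pos w = 0 ∧ (path w).tail.Nodup

/-- the extent of the walk in the direction of the first axis -/
def extent (w : List Step) : ℕ :=
  ((path w).toFinset ×ˢ (path w).toFinset).sup (fun x => (x.1.1 - x.2.1).natAbs)

/-- the number of the edges of the walk above the unit cell `[c, c + 1] × [j, j + 1]`: the
horizontal edges between the columns `c` and `c + 1` with a height larger than `j` -/
def above : List Step → ℤ → ℤ → ℕ
  | [], _, _ => 0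
  | a :: w, c, j => above w c j +
      if j < (pos w).2 ∧ ((a = .east ∧ (pos w).1 = c) ∨ (a = .west ∧ (pos w).1 = c + 1))
      then 1 else 0

/-- the area enclosed by a polygon: the number of the unit cells whose upward vertical ray crosses
an odd number of edges -/
def area (w : List Step) : ℕ := Set.ncard {p : ℤ × ℤ | Odd (above w p.1 p.2)}

/-- the mean of `g (area)` over the self-avoiding polygons of perimeter `n` chosen with probability
proportional to `y ^ extent`; every polygon (up to translation) corresponds to the same number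
`2 n` of words (a starting vertex and an orientation) -/
def mean (y : ℝ) (n : ℕ) (g : ℝ → ℝ) : ℝ :=
  (∑ f : Fin n → Step, if Polygon (List.ofFn f) then
    g (area (List.ofFn f)) * y ^ extent (List.ofFn f) else 0) /
  (∑ f : Fin n → Step, if Polygon (List.ofFn f) then y ^ extent (List.ofFn f) else 0)

/-- the constants of Takács: `K 0 = -1/2` and, for `k ≥ 1`,
`K k = (3 k - 4) / 4 * K (k - 1) + ∑ j ∈ {1, …, k - 1}, K j * K (k - j)` -/
def K : ℕ → ℝ
  | 0 => -1 / 2
  | k + 1 => (3 * ((k : ℝ) + 1) - 4) / 4 * K k + ∑ j : Fin k, K (j + 1) * K (k - j)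
decreasing_by all_goals omega

/-- the moments of the area under the normalised Brownian excursion, divided by the powers of the
mean: `E[B ^ k] = 4 √π 2 ^ (-k/2) k! K k / Γ((3 k - 1) / 2)` (Takács), `E[B] = √(π / 8)`, so
`E[B ^ k] / E[B] ^ k = 4 * 2 ^ k * k! * K k / (√π ^ (k - 1) * Γ((3 k - 1) / 2))` -/
def airy : ℕ → ℝ
  | 0 => 1
  | k + 1 => 4 * 2 ^ (k + 1) * (k + 1).factorial * K (k + 1) /
      (√Real.pi ^ k * Real.Gamma ((3 * ((k : ℝ) + 1) - 1) / 2))

/-! ### the words in the plane as words in space -/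

def ι : Step → KN.Dir
  | .east => .xp
  | .west => .xm
  | .north => .yp
  | .south => .ym

def emb (p : ℤ × ℤ) : KN.Z3 := (p.1, p.2, 0)

theorem emb_inj : Function.Injective emb := by
  intro p q h
  simp only [emb, Prod.mk.injEq, and_true] at h
  exact Prod.ext h.1 h.2

theorem ι_inj : Function.Injective ι := by
  intro a b h
  cases a <;> cases b <;> simp_all [ι]

theorem vec_ι (a : Step) : KN.vec (ι a) = emb (vec a) := by cases a <;> rfl

theorem emb_add (p q : ℤ × ℤ) : emb (p + q) = emb p + emb q := by simp [emb]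

theorem pos_map (w : List Step) : KN.pos (w.map ι) = emb (pos w) := by
  induction w with
  | nil => rfl
  | cons a w ih => simp only [List.map_cons, KN.pos, pos, ih, vec_ι, emb_add]

theorem path_map (w : List Step) : KN.path (w.map ι) = (path w).map emb := by
  induction w with
  | nil => rfl
  | cons a w ih => simp only [List.map_cons, KN.path, path, ih, pos_map, vec_ι, emb_add]

theorem sap_map (w : List Step) : KN.SAP (w.map ι) ↔ Polygon w := by
  unfold KN.SAP Polygon
  rw [List.length_map, pos_map, path_map, ← List.map_tail, List.nodup_map_iff emb_inj]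
  have : emb (pos w) = 0 ↔ pos w = 0 := by
    constructor
    · intro h
      exact emb_inj h
    · intro h; rw [h]; rfl
  rw [this]

theorem xt_map (w : List Step) : KN.ST.xt (w.map ι) = extent w := by
  unfold KN.ST.xt extent
  rw [path_map]
  apply le_antisymm
  · refine Finset.sup_le fun x hx => ?_
    simp only [mem_product, List.mem_toFinset, List.mem_map] at hx
    obtain ⟨⟨a, ha, h1⟩, ⟨b, hb, h2⟩⟩ := hx
    have := Finset.le_sup (f := fun x : (ℤ × ℤ) × (ℤ × ℤ) => (x.1.1 - x.2.1).natAbs)
      (s := (path w).toFinset ×ˢ (path w).toFinset) (b := (a, b)) (by simp [ha, hb])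
    rw [← h1, ← h2]
    exact this
  · refine Finset.sup_le fun x hx => ?_
    simp only [mem_product, List.mem_toFinset] at hx
    exact Finset.le_sup (f := fun x : KN.Z3 × KN.Z3 => (x.1.1 - x.2.1).natAbs)
      (s := ((path w).map emb).toFinset ×ˢ ((path w).map emb).toFinset) (b := (emb x.1, emb x.2))
      (by
        simp only [mem_product, List.mem_toFinset, List.mem_map]
        exact ⟨⟨_, hx.1, rfl⟩, ⟨_, hx.2, rfl⟩⟩)

theorem exists_map {w : List KN.Dir} (h : KN.SQ.Pl w) : ∃ v : List Step, v.map ι = w := by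
  induction w with
  | nil => exact ⟨[], rfl⟩
  | cons a w ih =>
    obtain ⟨v, hv⟩ := ih (fun b hb => h b (List.mem_cons_of_mem _ hb))
    have ha := h a List.mem_cons_self
    have : ∃ b : Step, ι b = a := by
      cases a
      · exact ⟨.east, rfl⟩
      · exact ⟨.west, rfl⟩
      · exact ⟨.north, rfl⟩
      · exact ⟨.south, rfl⟩
      · exact absurd rfl ha.1
      · exact absurd rfl ha.2
    obtain ⟨b, hb⟩ := this
    exact ⟨b :: v, by rw [List.map_cons, hb, hv]⟩

theorem pl_map (w : List Step) : KN.SQ.Pl (w.map ι) := by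
  intro a ha
  rw [List.mem_map] at ha
  obtain ⟨b, -, rfl⟩ := ha
  cases b <;> simp [ι]

theorem nv_map (w : List Step) (c j : ℤ) : KN.SQ.nv (w.map ι) c j = above w c j := by
  induction w with
  | nil => rfl
  | cons a w ih =>
    simp only [List.map_cons, KN.SQ.nv, above, ih, pos_map]
    have e1 : (emb (pos w)).1 = (pos w).1 := rfl
    have e2 : (emb (pos w)).2.1 = (pos w).2 := rfl
    rw [e1, e2]
    congr 1
    by_cases h : j < (pos w).2
    · rw [if_pos h]
      unfold KN.ST.cx
      congr 1
      apply propext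
      constructor
      · rintro (⟨h1, h2⟩ | ⟨h1, h2⟩)
        · refine ⟨h, Or.inl ⟨?_, by omega⟩⟩
          cases a <;> simp_all [ι]
        · refine ⟨h, Or.inr ⟨?_, by omega⟩⟩
          cases a <;> simp_all [ι]
      · rintro ⟨-, (⟨h1, h2⟩ | ⟨h1, h2⟩)⟩
        · left; rw [h1]; exact ⟨rfl, by omega⟩
        · right; rw [h1]; exact ⟨rfl, by omega⟩
    · rw [if_neg h, if_neg (fun h' => h h'.1)]

theorem AE_map (w : List Step) : (KN.SQ.AE (w.map ι)).toReal = area w := by
  unfold KN.SQ.AE area
  simp only [nv_map]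
  set s : Set (ℤ × ℤ) := {p : ℤ × ℤ | Odd (above w p.1 p.2)} with hs
  have e : ∀ p : ℤ × ℤ, KN.SQ.od (above w p.1 p.2) =
      s.indicator (fun _ => (1 : ENNReal)) p := by
    intro p
    unfold KN.SQ.od
    by_cases h : Odd (above w p.1 p.2)
    · rw [if_pos h, Set.indicator_of_mem (show p ∈ s from h)]
    · rw [if_neg h, Set.indicator_of_notMem (show p ∉ s from h)]
  rw [tsum_congr e, ← tsum_subtype s (fun _ => (1 : ENNReal)), ENNReal.tsum_set_one]
  by_cases hf : s.Finite
  · rw [← hf.cast_ncard_eq]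
    simp
  · rw [Set.Infinite.encard_eq hf, Set.Infinite.ncard hf]
    simp

theorem sum_words (y : ℝ) (n : ℕ) (F : List KN.Dir → ℝ) :
    ∑ w ∈ (KN.W n).filter (fun w => KN.SAP w ∧ KN.SQ.Pl w), F w * y ^ KN.ST.xt w =
    ∑ f : Fin n → Step, if Polygon (List.ofFn f) then
      F ((List.ofFn f).map ι) * y ^ extent (List.ofFn f) else 0 := by
  symm
  rw [← Finset.sum_filter]
  refine Finset.sum_bij (fun f _ => (List.ofFn f).map ι) ?_ ?_ ?_ ?_
  · intro f hf
    rw [mem_filter] at hf ⊢
    refine ⟨KN.mem_W.2 (by simp), (sap_map _).2 hf.2, pl_map _⟩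
  · intro f _ g _ h
    exact List.ofFn_injective (List.map_injective_iff.2 ι_inj h)
  · intro w hw
    rw [mem_filter, KN.mem_W] at hw
    obtain ⟨hl, hs, hp⟩ := hw
    obtain ⟨v, rfl⟩ := exists_map hp
    rw [List.length_map] at hl
    subst hl
    refine ⟨fun i => v.get i, ?_, ?_⟩
    · rw [mem_filter]
      refine ⟨mem_univ _, ?_⟩
      rw [List.ofFn_get]
      exact (sap_map _).1 hs
    · rw [List.ofFn_get]
  · intro f hf
    rw [xt_map]

theorem K_eq (k : ℕ) : K k = KN.SQ.Kt k := by
  induction k using Nat.strong_induction_on with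
  | _ k ih =>
    cases k with
    | zero => rw [K, KN.SQ.Kt]
    | succ k =>
      rw [K, KN.SQ.Kt, ih k (by omega)]
      congr 1
      refine Finset.sum_congr rfl fun j _ => ?_
      rw [ih _ (by omega), ih _ (by omega)]

theorem airy_eq : airy = KN.SQ.airy := by
  funext k
  cases k with
  | zero => rfl
  | succ k => rw [airy, KN.SQ.airy, K_eq]

theorem airy_one : airy 1 = 1 := by
  rw [airy, K, K]
  norm_num [Real.Gamma_one]

section
variable (y : ℝ) (n : ℕ)

/-- the weight of a word -/
def wt (f : Fin n → Step) : ℝ := if Polygon (List.ofFn f) then y ^ extent (List.ofFn f) else 0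

theorem Z_eq : ∑ f : Fin n → Step, wt y n f = KN.SQ.Zw y n := by
  have h2 := sum_words y n (fun _ => 1)
  simp only [one_mul] at h2
  unfold wt KN.SQ.Zw
  exact h2.symm

theorem pow_eq (k : ℕ) : ∑ f : Fin n → Step, (area (List.ofFn f) : ℝ) ^ k * wt y n f =
    KN.SQ.ZK y k n := by
  have h2 := sum_words y n (fun w => (KN.SQ.AE w).toReal ^ k)
  simp only [AE_map] at h2
  unfold KN.SQ.ZK
  rw [h2]
  refine Finset.sum_congr rfl fun f _ => ?_
  unfold wt
  rw [mul_ite, mul_zero]

theorem area_eq : ∑ f : Fin n → Step, (area (List.ofFn f) : ℝ) * wt y n f = KN.SQ.ZA y n := by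
  have h2 := sum_words y n (fun w => (KN.SQ.AE w).toReal)
  simp only [AE_map] at h2
  unfold KN.SQ.ZA
  rw [h2]
  refine Finset.sum_congr rfl fun f _ => ?_
  unfold wt
  rw [mul_ite, mul_zero]

theorem mean_eq (g : ℝ → ℝ) : mean y n g =
    (∑ f : Fin n → Step, g (area (List.ofFn f)) * wt y n f) / ∑ f : Fin n → Step, wt y n f := by
  unfold mean wt
  simp only [mul_ite, mul_zero]

theorem mean_id : mean y n (fun a => a) = KN.SQ.ZA y n / KN.SQ.Zw y n := by
  rw [mean_eq, Z_eq, area_eq]

theorem mean_div (m : ℝ) (k : ℕ) : mean y n (fun a => (a / m) ^ k) =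
    (KN.SQ.ZK y k n / KN.SQ.Zw y n) / m ^ k := by
  rw [mean_eq, Z_eq, ← pow_eq]
  have : ∀ f : Fin n → Step, ((area (List.ofFn f) : ℝ) / m) ^ k * wt y n f =
      (area (List.ofFn f) : ℝ) ^ k * wt y n f / m ^ k := by
    intro f
    rw [div_pow]; ring
  simp only [this]
  rw [← Finset.sum_div]
  ring

end

/-- the moments -/
theorem moments {y : ℝ} (hy : 10 ^ 96 ≤ y) (k : ℕ) :
    (∀ᶠ n : ℕ in atTop, 0 < KN.SQ.Zw y (2 * n)) ∧
    (∀ᶠ n : ℕ in atTop, 0 < mean y (2 * n) (fun a => a)) ∧
    Tendsto (fun n : ℕ => mean y (2 * n) (fun a => (a / mean y (2 * n) (fun a => a)) ^ k)) atTop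
      (𝓝 (airy k)) := by
  have hy0 : 0 < y := lt_of_lt_of_le (by norm_num) hy
  set s : ℝ := y ^ (-(1 / 8) : ℝ) with hsd
  have hs0 : 0 < s := Real.rpow_pos_of_pos hy0 _
  have hs8 : y * s ^ 8 = 1 := by
    rw [hsd, ← Real.rpow_natCast, ← Real.rpow_mul hy0.le]
    norm_num
    rw [Real.rpow_neg_one, mul_inv_cancel₀ hy0.ne']
  have hs1 : s ≤ 1 / 10 ^ 12 := by
    by_contra h
    push Not at h
    have h1 : (1 / 10 ^ 12 : ℝ) ^ 8 < s ^ 8 := pow_lt_pow_left₀ h (by norm_num) (by norm_num)
    have h2 : (10 ^ 96 : ℝ) * (1 / 10 ^ 12 : ℝ) ^ 8 < y * s ^ 8 :=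
      mul_lt_mul' hy h1 (by positivity) hy0
    rw [hs8] at h2
    norm_num at h2
  have hs : KN.SQ.Wok s := ⟨hs0, hs1⟩
  have hqc := (KN.SQ.MM s hs).qc_pos
  -- positivity
  have hZ : ∀ᶠ n : ℕ in atTop, 0 < KN.SQ.Zw y (2 * n) := by
    have h2 := KN.SQ.Zw_asym hs hs8
    have hC1 := KN.SQ.C1_pos hs
    have hπ : 0 < √Real.pi := Real.sqrt_pos.2 Real.pi_pos
    have h3 := h2.eventually_const_lt (u := 0) (by positivity)
    filter_upwards [h3, eventually_gt_atTop 0] with n hn hn0
    by_contra h
    push Not at h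
    have hn1 : (0 : ℝ) < n := by exact_mod_cast hn0
    have : KN.SQ.Zw y (2 * n) / (2 * ((2 * n : ℕ) : ℝ)) *
        (s ^ 4 * (KN.SQ.MM s hs).qc) ^ (2 * n) * ((n : ℝ) * √(n : ℝ)) ≤ 0 := by
      refine mul_nonpos_of_nonpos_of_nonneg (mul_nonpos_of_nonpos_of_nonneg
        (div_nonpos_of_nonpos_of_nonneg h (by positivity)) (by positivity)) (by positivity)
    exact absurd hn (not_lt.2 this)
  have hA : ∀ᶠ n : ℕ in atTop, 0 < KN.SQ.ZA y (2 * n) := by
    have h2 := KN.SQ.ZA_asym hs hs8
    have h3 := h2.eventually_const_lt (u := 0) (KN.SQ.C2_pos hs)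
    filter_upwards [h3, eventually_gt_atTop 0] with n hn hn0
    by_contra h
    push Not at h
    have : KN.SQ.ZA y (2 * n) / ((2 * n : ℕ) : ℝ) *
        (s ^ 4 * (KN.SQ.MM s hs).qc) ^ (2 * n) ≤ 0 := by
      refine mul_nonpos_of_nonpos_of_nonneg
        (div_nonpos_of_nonpos_of_nonneg h (by positivity)) (by positivity)
    exact absurd hn (not_lt.2 this)
  refine ⟨hZ, ?_, ?_⟩
  · filter_upwards [hZ, hA] with n h1 h2
    rw [mean_id]
    exact div_pos h2 h1
  · rcases k with _ | _ | k
    · refine tendsto_const_nhds.congr' ?_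
      filter_upwards [hZ] with n h1
      rw [mean_eq, Z_eq]
      simp only [pow_zero, one_mul]
      rw [Z_eq, div_self h1.ne']
      rfl
    · rw [zero_add, airy_one]
      refine tendsto_const_nhds.congr' ?_
      filter_upwards [hZ, hA] with n h1 h2
      have e : mean y (2 * n) (fun a => (a / mean y (2 * n) (fun a => a)) ^ 1) =
          (KN.SQ.ZK y 1 (2 * n) / KN.SQ.Zw y (2 * n)) / mean y (2 * n) (fun a => a) ^ 1 :=
        mean_div y (2 * n) _ 1
      have e2 : KN.SQ.ZK y 1 (2 * n) = KN.SQ.ZA y (2 * n) := by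
        unfold KN.SQ.ZK KN.SQ.ZA
        simp only [pow_one]
      rw [e, mean_id, e2, pow_one, div_self (div_pos h2 h1).ne']
    · have h := KN.SQ.moments_lim hs hs8 (k := k + 2) (by omega)
      have e : airy (k + 1 + 1) = 4 * 2 ^ (k + 2) * (k + 2).factorial * KN.SQ.Kt (k + 2) /
          (√Real.pi ^ (k + 2 - 1) * Real.Gamma ((3 * ((k + 2 : ℕ) : ℝ) - 1) / 2)) := by
        rw [airy_eq, KN.SQ.airy]
        have e1 : k + 2 - 1 = k + 1 := by omega
        rw [e1]
        have e2 : (3 * (((k + 1 : ℕ) : ℝ) + 1) - 1) / 2 = (3 * ((k + 2 : ℕ) : ℝ) - 1) / 2 := by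
          push_cast; ring
        rw [e2]
      rw [e]
      refine h.congr fun n => ?_
      rw [mean_div, mean_id]

/-- the limit law for one weight -/
theorem law {y : ℝ} (hy : 10 ^ 96 ≤ y) : ∃ ν : ProbabilityMeasure ℝ,
    (∀ k : ℕ, Integrable (fun x : ℝ => x ^ k) (ν : Measure ℝ) ∧
      ∫ x, x ^ k ∂(ν : Measure ℝ) = airy k) ∧
    ∀ g : ℝ → ℝ, Continuous g → (∃ C : ℝ, ∀ x, |g x| ≤ C) →
      Tendsto (fun n : ℕ => mean y (2 * n) (fun a => g (a / mean y (2 * n) (fun a => a)))) atTop
        (𝓝 (∫ x, g x ∂(ν : Measure ℝ))) := by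
  have hy0 : 0 < y := lt_of_lt_of_le (by norm_num) hy
  have hw0 : ∀ n (f : Fin (2 * n) → Step), 0 ≤ wt y (2 * n) f := by
    intro n f
    unfold wt
    split_ifs
    · positivity
    · exact le_rfl
  have hm0 : ∀ n : ℕ, 0 ≤ mean y (2 * n) (fun a => a) := by
    intro n
    rw [mean_eq]
    exact div_nonneg (Finset.sum_nonneg fun f _ => mul_nonneg (Nat.cast_nonneg _) (hw0 n f))
      (Finset.sum_nonneg fun f _ => hw0 n f)
  obtain ⟨ν, -, h1, h2⟩ := KN.SQ.family_law (fun n => Fin (2 * n) → Step)
    (fun n f => wt y (2 * n) f)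
    (fun n f => (area (List.ofFn f) : ℝ) / mean y (2 * n) (fun a => a)) hw0
    (fun n f => div_nonneg (Nat.cast_nonneg _) (hm0 n))
    ((moments hy 0).1.mono fun n hn => by rw [Z_eq]; exact hn) airy
    (fun k => by
      refine (moments hy k).2.2.congr fun n => ?_
      rw [mean_eq])
    (fun t => by rw [airy_eq]; exact KN.SQ.airy_growth t)
  refine ⟨ν, h1, fun g hg hb => ?_⟩
  exact (h2 g hg hb).congr fun n => (mean_eq y (2 * n) _).symm

/-- There is exactly one probability law `ν` on `ℝ` with the moments `airy k` (the moments of the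
area under the Brownian excursion divided by its mean). For every `y ≥ 10 ^ 96`, the area of a
random self-avoiding polygon of perimeter `2 n` in `ℤ²`, chosen with probability proportional to
`y ^ extent`, divided by its mean converges in distribution to `ν`, with all its moments. -/
theorem result : ∃ ν : ProbabilityMeasure ℝ,
    (∀ k : ℕ, Integrable (fun x : ℝ => x ^ k) (ν : Measure ℝ) ∧
      ∫ x, x ^ k ∂(ν : Measure ℝ) = airy k) ∧
    (∀ ν' : ProbabilityMeasure ℝ, (∀ k : ℕ, Integrable (fun x : ℝ => x ^ k) (ν' : Measure ℝ) ∧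
      ∫ x, x ^ k ∂(ν' : Measure ℝ) = airy k) → ν' = ν) ∧
    ∀ y : ℝ, 10 ^ 96 ≤ y →
      (∀ g : ℝ → ℝ, Continuous g → (∃ C : ℝ, ∀ x, |g x| ≤ C) →
        Tendsto (fun n : ℕ => mean y (2 * n) (fun a => g (a / mean y (2 * n) (fun a => a)))) atTop
          (𝓝 (∫ x, g x ∂(ν : Measure ℝ)))) ∧
      (∀ k : ℕ, Tendsto (fun n : ℕ =>
        mean y (2 * n) (fun a => (a / mean y (2 * n) (fun a => a)) ^ k)) atTop (𝓝 (airy k))) := by
  have hgr : ∀ t : ℝ, Tendsto (fun k : ℕ => t ^ k * airy k / k.factorial) atTop (𝓝 0) := by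
    intro t; rw [airy_eq]; exact KN.SQ.airy_growth t
  obtain ⟨ν, h1, -⟩ := law (y := 10 ^ 96) le_rfl
  refine ⟨ν, h1, fun ν' h' => KN.SQ.moments_unique ν' ν airy h' h1 hgr, fun y hy => ⟨?_, ?_⟩⟩
  · obtain ⟨ν', h1', h2'⟩ := law hy
    have e : ν' = ν := KN.SQ.moments_unique ν' ν airy h1' h1 hgr
    rw [e] at h2'
    exact h2'
  · exact fun k => (moments hy k).2.2

end

end Pool.Agent.Results.MP_f6626d_co.StretchedAreaLaw
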