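import Pool.Agent.H26.GC.Law

/-!
The self-avoiding polygons on the square lattice weighted by `z^perimeter`: the tail of their area
and the law of their shape, area and perimeter given that the area is large, uniformly in the
fugacity `z` up to the critical point and in the area down to the critical scale.
-/

set_option autoImplicit false

namespace Pool.Agent.Results.MP_f6626d_co.WulffGrandCanonical

open Filter Topology MeasureTheory Set Metric
open scoped Pointwise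

/-- a closed nearest-neighbour loop on `ℤ²` with `m` steps, rooted at the origin and oriented,
that visits no vertex twice -/
def IsLoop (m : ℕ) (f : ZMod m → ℤ × ℤ) : Prop :=
  f 0 = 0 ∧ Function.Injective f ∧
    ∀ i : ZMod m, |(f (i + 1)).1 - (f i).1| + |(f (i + 1)).2 - (f i).2| = 1

/-- the edge from `f k` to `f (k+1)` is horizontal, joins the columns `x = a` and `x = a + 1`, and
has height larger than `b`: it lies above the unit cell `[a, a+1] × [b, b+1]` -/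
def Above (m : ℕ) (f : ZMod m → ℤ × ℤ) (a b : ℤ) (k : ZMod m) : Prop :=
  (((f k).1 = a ∧ (f (k + 1)).1 = a + 1) ∨ ((f k).1 = a + 1 ∧ (f (k + 1)).1 = a)) ∧ b < (f k).2

/-- the unit cell `[a, a+1] × [b, b+1]` is enclosed by the loop: the vertical ray from the cell
upwards crosses an odd number of edges -/
def Encl (m : ℕ) (f : ZMod m → ℤ × ℤ) (c : ℤ × ℤ) : Prop :=
  Odd (Nat.card {k : ZMod m // Above m f c.1 c.2 k})

/-- the area: the number of unit cells enclosed by the loop -/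
noncomputable def area (m : ℕ) (f : ZMod m → ℤ × ℤ) : ℕ := Nat.card {c : ℤ × ℤ // Encl m f c}

/-- the convex hull of the polygon, scaled by `1/s` -/
def hull (n : ℕ) (s : ℝ) (f : ZMod (2 * n) → ℤ × ℤ) : Set (ℝ × ℝ) :=
  convexHull ℝ (range fun k : ZMod (2 * n) => (((f k).1 : ℝ) / s, ((f k).2 : ℝ) / s))

/-- the region enclosed by the polygon (the union of the enclosed unit cells), scaled by `1/s` -/
def inside (n : ℕ) (s : ℝ) (f : ZMod (2 * n) → ℤ × ℤ) : Set (ℝ × ℝ) :=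
  ⋃ c ∈ {c : ℤ × ℤ | Encl (2 * n) f c},
    Ico ((c.1 : ℝ) / s) (((c.1 : ℝ) + 1) / s) ×ˢ Ico ((c.2 : ℝ) / s) (((c.2 : ℝ) + 1) / s)

/-- the polygon, scaled by `1/s`, has the shape `T` up to `δ`: after a translation of `T` the
Hausdorff distance between the convex hull of the polygon and `T` is smaller than `δ`, and so is
the area of the symmetric difference of the enclosed region and `T` -/
def Close (n : ℕ) (s : ℝ) (T : Set (ℝ × ℝ)) (δ : ℝ) (f : ZMod (2 * n) → ℤ × ℤ) : Prop :=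
  ∃ w : ℝ × ℝ, hausdorffDist (hull n s f) ((fun x => x + w) '' T) < δ ∧
    volume.real (symmDiff (inside n s f) ((fun x => x + w) '' T)) < δ

/-- the total weight at fugacity `z` of the self-avoiding polygons (up to translation) with the
property `P`.  The perimeter is `2 n` with `n = k + 2`, `k = 0, 1, 2, …`; a polygon of perimeter
`2 n` has the weight `z^(2 n)` and corresponds to `4 n` rooted and oriented loops. -/
noncomputable def Z (z : ℝ) (P : ∀ n : ℕ, (ZMod (2 * n) → ℤ × ℤ) → Prop) : ℝ :=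
  ∑' k : ℕ, z ^ (2 * (k + 2)) *
    ({f : ZMod (2 * (k + 2)) → ℤ × ℤ | IsLoop (2 * (k + 2)) f ∧ P (k + 2) f}.ncard : ℝ) /
      (4 * ((k + 2 : ℕ) : ℝ))

/-- `ω` is an `n`-step self-avoiding walk on `ℤ²` started at the origin. -/
def IsSAW (n : ℕ) (ω : Fin (n + 1) → ℤ × ℤ) : Prop :=
  ω 0 = (0, 0) ∧
  (∀ i : Fin n, |(ω i.succ).1 - (ω i.castSucc).1| + |(ω i.succ).2 - (ω i.castSucc).2| = 1) ∧
  Function.Injective ω

/-- `c_n`: the number of `n`-step self-avoiding walks from the origin -/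
noncomputable def c (n : ℕ) : ℕ := Nat.card {ω : Fin (n + 1) → ℤ × ℤ // IsSAW n ω}

/-- `c_n(x)`: the number of `n`-step self-avoiding walks from the origin to `x` -/
noncomputable def cx (n : ℕ) (x : ℤ × ℤ) : ℕ :=
  Nat.card {ω : Fin (n + 1) → ℤ × ℤ // IsSAW n ω ∧ ω (Fin.last n) = x}

/-- the two-point function `G_z(x) = ∑_n c_n(x) z^n` -/
noncomputable def G (z : ℝ) (x : ℤ × ℤ) : ℝ := ∑' n : ℕ, (cx n x : ℝ) * z ^ n

/-- the Wulff shape of a function `m` of the directions `x ∈ ℤ²` -/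
def Wulff (m : ℤ × ℤ → ℝ) : Set (ℝ × ℝ) :=
  {h | ∀ x : ℤ × ℤ, x ≠ 0 → h.1 * x.1 + h.2 * x.2 ≤ m x}

/-- `r(E) = √|K_z|` for the fugacity `z = e^(-E) / μ` -/
noncomputable def r (μ : ℝ) (m : ℝ → ℤ × ℤ → ℝ) (E : ℝ) : ℝ :=
  √(volume.real (Wulff (m (Real.exp (-E) / μ))))

/-- the polygon of perimeter `2 n` is typical, up to `δ`, at the fugacity `z = e^(-E) / μ` for the
area `a`: scaled by `1/√a` it has the shape `K_z / √|K_z|` up to `δ`; its area is smaller than
`(1 + δ) a`; and `n / √a` lies, up to `δ r(E) / E`, between the difference quotients of `r` over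
`[E, (1 + h) E]` and over `[(1 - h) E, E]` -/
def Typ (μ : ℝ) (m : ℝ → ℤ × ℤ → ℝ) (E a δ h : ℝ) (n : ℕ) (f : ZMod (2 * n) → ℤ × ℤ) : Prop :=
  Close n √a ((1 / r μ m E) • Wulff (m (Real.exp (-E) / μ))) δ f ∧
  (area (2 * n) f : ℝ) < (1 + δ) * a ∧
  √a * ((r μ m ((1 + h) * E) - r μ m E) / h - δ * r μ m E) < n * E ∧
  n * E < √a * ((r μ m E - r μ m ((1 - h) * E)) / h + δ * r μ m E)

theorem c_eq (n : ℕ) : c n = TH795.EP.c n := TH795.EP2.card_walks n

theorem cx_eq (n : ℕ) (x : ℤ × ℤ) : cx n x = TH795.EP.a n x.1 x.2 := TH795.EP2.card_walks_to n x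

theorem G_eq (z : ℝ) (x y : ℤ) : G z (x, y) = Y981.L2.Gz z x y := by
  unfold G Y981.L2.Gz
  apply tsum_congr
  intro n
  rw [cx_eq]

theorem Z_eq (z : ℝ) (P : ∀ n : ℕ, (ZMod (2 * n) → ℤ × ℤ) → Prop) : Z z P = H26.GC.Zs z P := rfl

/-- **Theorem.** Let `μ = lim c_n^(1/n)` and, for `0 < z < 1/μ` and `x ∈ ℤ²`, `x ≠ 0`,
`m_z(x) = lim_k - (1/k) log G_z(k x)` the inverse correlation length of the self-avoiding walk in
the direction `x`.  Its Wulff shape `K_z = {h : h · x ≤ m_z(x) for all x}` is a convex compact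
neighbourhood of `0`.  Write `z = e^(-E) / μ`, `E > 0`; the critical point is `E → 0`.
(1) `r(E) = √|K_z|` is a concave, increasing function of `E` which tends to `0` as `E → 0`, and
`E ≤ m_z(1,0) ≤ r(E) ≤ 2 m_z(1,0)`, where `1/m_z(1,0)` is the correlation length.
(2) The tail of the area: for `0 < ε < 1` there are `C` and `a₀` such that for all `E > 0` and all
`a ≥ a₀` the total weight of the polygons with area at least `a`, a polygon of perimeter `2 n`
having weight `z^(2 n)`, is between `exp(-2 (1 + ε) √a r(E) - C log²(2 + 1/E))` and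
`exp(-2 (1 - ε) √a r(E) + C log²(2 + 1/E))`.
(3) The law of the polygons: for `κ, δ > 0` and `0 < h < 1` there are `c > 0`, `C` and `a₀` such
that the following holds for all `E > 0`, all `a ≥ a₀` with `√a r(E) ≥ C log²(2 + 1/E)` and all `S`
with `(a, (1 + κ) a) ⊆ S ⊆ [a, ∞)`.  The polygons with area in `S` which are not typical have at
most the proportion `exp(- c √a r(E))` of the total weight of the polygons with area in `S`.
The constants do not depend on `E`, which may tend to `0`: the condition says that the area is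
larger, by the factor `C log⁴(2 + 1/E)`, than the square of the correlation length. -/
theorem result : ∃ (μ : ℝ) (m : ℝ → ℤ × ℤ → ℝ),
    Tendsto (fun n : ℕ => (c n : ℝ) ^ (1 / (n : ℝ))) atTop (𝓝 μ) ∧
    (∀ z : ℝ, 0 < z → z < 1 / μ → (∀ x : ℤ × ℤ, x ≠ 0 → 0 < m z x ∧
      Tendsto (fun k : ℕ => - Real.log (G z (k * x.1, k * x.2)) / k) atTop (𝓝 (m z x))) ∧
      Convex ℝ (Wulff (m z)) ∧ IsCompact (Wulff (m z)) ∧ (0 : ℝ × ℝ) ∈ interior (Wulff (m z))) ∧
    (ConcaveOn ℝ (Ioi 0) (r μ m) ∧ MonotoneOn (r μ m) (Ioi 0) ∧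
      Tendsto (r μ m) (𝓝[>] 0) (𝓝 0) ∧ ∀ E : ℝ, 0 < E →
        E ≤ m (Real.exp (-E) / μ) (1, 0) ∧ m (Real.exp (-E) / μ) (1, 0) ≤ r μ m E ∧
        r μ m E ≤ 2 * m (Real.exp (-E) / μ) (1, 0)) ∧
    (∀ ε : ℝ, 0 < ε → ε < 1 → ∃ C a₀ : ℝ, 0 < C ∧ 0 < a₀ ∧ ∀ E : ℝ, 0 < E → ∀ a : ℝ, a₀ ≤ a →
      Real.exp (-(2 * (1 + ε) * (√a * r μ m E)) - C * Real.log (2 + 1 / E) ^ 2) ≤
        Z (Real.exp (-E) / μ) (fun n f => a ≤ area (2 * n) f) ∧
      Z (Real.exp (-E) / μ) (fun n f => a ≤ area (2 * n) f) ≤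
        Real.exp (-(2 * (1 - ε) * (√a * r μ m E)) + C * Real.log (2 + 1 / E) ^ 2)) ∧
    ∀ κ δ h : ℝ, 0 < κ → 0 < δ → 0 < h → h < 1 → ∃ c C a₀ : ℝ, 0 < c ∧ 0 < C ∧ 0 < a₀ ∧
      ∀ E : ℝ, 0 < E → ∀ a : ℝ, a₀ ≤ a → C * Real.log (2 + 1 / E) ^ 2 ≤ √a * r μ m E →
      ∀ S : Set ℝ, Ioo a ((1 + κ) * a) ⊆ S → S ⊆ Ici a →
        0 < Z (Real.exp (-E) / μ) (fun n f => (area (2 * n) f : ℝ) ∈ S) ∧
        Z (Real.exp (-E) / μ)
            (fun n f => (area (2 * n) f : ℝ) ∈ S ∧ ¬Typ μ m E a δ h n f) ≤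
          Real.exp (-(c * (√a * r μ m E))) *
            Z (Real.exp (-E) / μ) (fun n f => (area (2 * n) f : ℝ) ∈ S) := by
  have hmu := H981.mu_pos
  obtain ⟨m, hm⟩ : ∃ m : ℝ → ℤ × ℤ → ℝ,
      m = fun z x => Y981.L2X.M (-Real.log (z * H981.mu)) ((x.1 : ℝ), (x.2 : ℝ)) := ⟨_, rfl⟩
  have hlogE : ∀ z : ℝ, 0 < z → z < 1 / H981.mu → 0 < -Real.log (z * H981.mu) := by
    intro z hz hz1
    have h1 : z * H981.mu < 1 := by rwa [lt_div_iff₀ hmu] at hz1
    have h2 := Real.log_neg (mul_pos hz hmu) h1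
    linarith
  have hW : ∀ z : ℝ, 0 < z → z < 1 / H981.mu →
      Wulff (m z) = H26.WF.Kc (-Real.log (z * H981.mu)) := by
    intro z hz hz1
    rw [hm]
    exact H26.WF.shape (hlogE z hz hz1)
  have hz0 : ∀ E : ℝ, 0 < Real.exp (-E) / H981.mu := fun E => by positivity
  have hz1 : ∀ E : ℝ, 0 < E → Real.exp (-E) / H981.mu < 1 / H981.mu := by
    intro E hE
    rw [div_lt_div_iff_of_pos_right hmu, ← Real.exp_zero]
    exact Real.exp_lt_exp.2 (by linarith)
  have hzE : ∀ E : ℝ, -Real.log (Real.exp (-E) / H981.mu * H981.mu) = E := by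
    intro E
    rw [div_mul_cancel₀ _ hmu.ne', Real.log_exp, neg_neg]
  have hWE : ∀ E : ℝ, 0 < E → Wulff (m (Real.exp (-E) / H981.mu)) = H26.WF.Kc E := by
    intro E hE
    rw [hW _ (hz0 E) (hz1 E hE), hzE]
  have hr : ∀ E : ℝ, 0 < E → r H981.mu m E = H26.WF.g E := by
    intro E hE
    unfold r
    rw [hWE E hE]
    rfl
  have hmE : ∀ E : ℝ, 0 < E → m (Real.exp (-E) / H981.mu) (1, 0) = Y981.L2.mass E := by
    intro E hE
    rw [hm]
    simp only [hzE]
    rw [← Y981.L2X.M_axis hE]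
    simp
  refine ⟨H981.mu, m, ?_, ?_, ⟨?_, ?_, ?_, ?_⟩, ?_, ?_⟩
  · refine H981.tendsto_root.congr ?_
    intro n
    rw [c_eq, TH795.EP.c_eq]
  · intro z hz hz1
    have he := hlogE z hz hz1
    refine ⟨fun x hx => ?_, ?_⟩
    · rw [hm]
      refine ⟨Y981.L2X.M_pos he hx, ?_⟩
      refine (Y981.L2X.G_dir hz hz1 hx).congr ?_
      intro k
      rw [G_eq]
    · rw [hW z hz hz1]
      exact H26.WF.Kc_props he
  · exact H26.WF.g_concave.congr fun E hE => (hr E hE).symm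
  · intro E hE F hF hEF
    rw [mem_Ioi] at hE hF
    rw [hr E hE, hr F hF]
    unfold H26.WF.g
    apply Real.sqrt_le_sqrt
    unfold H26.WF.V
    exact measureReal_mono (H26.GC.Kc_mono hEF) (H26.WF.Kc_props hF).2.1.measure_lt_top.ne
  · rw [Metric.tendsto_nhds]
    intro ε hε
    filter_upwards [H26.WF.g_small hε, self_mem_nhdsWithin] with E h1 h2
    rw [mem_Ioi] at h2
    rw [hr E h2, Real.dist_eq, sub_zero, abs_of_nonneg (H26.WF.g_nonneg E)]
    exact h1
  · intro E hE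
    rw [hmE E hE, hr E hE]
    exact ⟨Y981.L2.self_le_mass hE.le, H26.UN.mass_le_g hE, H26.WF.g_le_mass hE⟩
  · intro ε hε hε1
    obtain ⟨C1, s₀, hC1, hs₀, hlow⟩ := H26.GC.Z_low hε hε1
    obtain ⟨C2, hC2, hup⟩ := H26.GC.Z_up hε hε1
    refine ⟨C1 + C2, s₀ ^ 2, by positivity, by positivity, ?_⟩
    intro E hE a ha
    have ha0 : 0 < a := lt_of_lt_of_le (by positivity) ha
    have hs : s₀ ≤ √a := Real.le_sqrt_of_sq_le ha
    have hs0 : 0 < √a := Real.sqrt_pos.2 ha0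
    have h1 := hlow _ (hz0 E) (by rw [hzE]; exact hE) √a hs
    obtain ⟨-, h2⟩ := hup _ (hz0 E) (by rw [hzE]; exact hE) √a hs0
    rw [hzE, Real.sq_sqrt ha0.le] at h1 h2
    rw [hr E hE]
    have hL : 0 ≤ H26.GC.Lm E ^ 2 := sq_nonneg _
    have e : H26.GC.Lm E = Real.log (2 + 1 / E) := rfl
    rw [e] at h1 h2 hL
    have b1 := mul_nonneg hC1.le hL
    have b2 := mul_nonneg hC2.le hL
    have e3 : (C1 + C2) * Real.log (2 + 1 / E) ^ 2 =
      C1 * Real.log (2 + 1 / E) ^ 2 + C2 * Real.log (2 + 1 / E) ^ 2 := by ring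
    constructor
    · refine le_trans (Real.exp_le_exp.2 ?_) h1
      rw [e3]
      linarith
    · refine h2.trans (Real.exp_le_exp.2 ?_)
      rw [e3]
      linarith
  · intro κ δ h hκ hδ h0 h1
    obtain ⟨δ1, hδ1, hreg⟩ := H26.UN.region_u hδ
    obtain ⟨δ2, hδ2⟩ : ∃ δ2, δ2 = min δ δ1 := ⟨_, rfl⟩
    have hδ20 : 0 < δ2 := by rw [hδ2]; exact lt_min hδ hδ1
    have hδ2a : δ2 ≤ δ := by rw [hδ2]; exact min_le_left _ _
    have hδ2b : δ2 ≤ δ1 := by rw [hδ2]; exact min_le_right _ _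
    obtain ⟨c1, C1, s₀, hc1, hC1, hs₀, hlaw⟩ := H26.GC.Z_law hκ hδ20 h0 h1
    refine ⟨c1, C1, s₀ ^ 2, hc1, hC1, by positivity, ?_⟩
    intro E hE a ha hbig S hS1 hS2
    have ha0 : 0 < a := lt_of_lt_of_le (by positivity) ha
    have hs : s₀ ≤ √a := Real.le_sqrt_of_sq_le ha
    have hs0 : 0 < √a := Real.sqrt_pos.2 ha0
    have hsq : √a ^ 2 = a := Real.sq_sqrt ha0.le
    have hg := H26.UN.g_pos hE
    have hE1 : 0 < (1 + h) * E := mul_pos (by linarith) hE
    have hE2 : 0 < (1 - h) * E := mul_pos (by linarith) hE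
    rw [hr E hE] at hbig ⊢
    obtain ⟨q1, q2⟩ := hlaw _ (hz0 E) (by rw [hzE]; exact hE) √a hs (by rw [hzE]; exact hbig) S
      (by rw [hsq]; exact hS1) (by rw [hsq]; exact hS2)
    rw [hzE] at q2
    refine ⟨q1, ?_⟩
    apply q2 (fun n f => (area (2 * n) f : ℝ) ∈ S ∧ ¬Typ H981.mu m E a δ h n f)
    intro n hn f hf hq
    obtain ⟨hq1, hq2⟩ := hq
    have : NeZero (2 * n) := ⟨by omega⟩
    have hq1' : (Y981.L2.area (2 * n) f : ℝ) ∈ S := hq1
    refine ⟨hq1', ?_⟩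
    by_contra hcon
    push Not at hcon
    obtain ⟨p1, p2, p3, p4⟩ := hcon
    apply hq2
    have hx : δ2 * H26.WF.g E ≤ δ * H26.WF.g E := mul_le_mul_of_nonneg_right hδ2a hg.le
    refine ⟨?_, ?_, ?_, ?_⟩
    · have hp : ¬ ∀ w : ℝ × ℝ, δ2 ≤ hausdorffDist (convexHull ℝ (H26.WS.pts √a f))
          ((fun x => x + w) '' H26.UN.UE E) := p1
      push Not at hp
      obtain ⟨w, hw⟩ := hp
      rw [hWE E hE, hr E hE]
      refine ⟨w, lt_of_lt_of_le hw hδ2a, ?_⟩
      apply hreg (H26.UN.UE E) (H26.UN.UE_cl hE) (H26.UN.UE_vol hE) w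
        (H26.WS.region √a f) (convexHull ℝ (H26.WS.pts √a f))
        (H26.WS.region_meas _ _) (H26.WS.region_sub hs0 hf.2.2) (H26.WS.hull_compact _ _)
        (lt_of_lt_of_le hw hδ2b)
      have h2 : volume.real (H26.WS.region √a f) =
          (Y981.L2.area (2 * n) f : ℝ) / √a ^ 2 := by
        unfold Measure.real
        rw [H26.WS.region_vol hs0 hf.2.2, ENNReal.toReal_ofReal (by positivity)]
      rw [h2, hsq, one_le_div ha0]
      exact hS2 hq1'
    · rw [hsq] at p2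
      refine lt_of_lt_of_le p2 ?_
      apply mul_le_mul_of_nonneg_right _ ha0.le
      linarith
    · rw [hr E hE, hr _ hE1]
      refine lt_of_le_of_lt ?_ p4
      apply mul_le_mul_of_nonneg_left _ hs0.le
      linarith
    · rw [hr E hE, hr _ hE2]
      refine lt_of_lt_of_le p3 ?_
      apply mul_le_mul_of_nonneg_left _ hs0.le
      linarith

end Pool.Agent.Results.MP_f6626d_co.WulffGrandCanonical
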