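import Pool.Agent.H26.AR.Prs
import Pool.Agent.H26.AR.Dual
import Pool.Agent.H26.UN.Unif
import Pool.Agent.H26.UN.Scl

/-!
The area of the planar self-avoiding polygons at all scales: the upper tail of the area is governed,
with the exact constant and uniformly in the area, by the areas of the Wulff shapes of the inverse
correlation length of the self-avoiding walk; large deviation principle on the scale `n ^ 2`.
-/

set_option autoImplicit false

namespace Pool.Agent.Results.MP_f6626d_co.WulffRateAllScales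

open Filter Topology MeasureTheory Set

/-- a closed nearest-neighbour loop on `ℤ²` with `m` steps, rooted at the origin and oriented,
that visits no vertex twice -/
def IsLoop (m : ℕ) (f : ZMod m → ℤ × ℤ) : Prop :=
  f 0 = 0 ∧ Function.Injective f ∧
    ∀ i : ZMod m, |(f (i + 1)).1 - (f i).1| + |(f (i + 1)).2 - (f i).2| = 1

/-- the edge from `f k` to `f (k+1)` is horizontal, joins the columns `x = a` and `x = a + 1`, and
has height larger than `b`: it lies above the unit cell `[a, a+1] × [b, b+1]` -/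
def Above (m : ℕ) (f : ZMod m → ℤ × ℤ) (a b : ℤ) (k : ZMod m) : Prop :=
  (((f k).1 = a ∧ (f (k + 1)).1 = a + 1) ∨ ((f k).1 = a + 1 ∧ (f (k + 1)).1 = a)) ∧ b < (f k).2

/-- the unit cell `[a, a+1] × [b, b+1]` is enclosed by the loop: the vertical ray from the cell
upwards crosses an odd number of edges -/
def Encl (m : ℕ) (f : ZMod m → ℤ × ℤ) (c : ℤ × ℤ) : Prop :=
  Odd (Nat.card {k : ZMod m // Above m f c.1 c.2 k})

/-- the area: the number of unit cells enclosed by the loop -/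
noncomputable def area (m : ℕ) (f : ZMod m → ℤ × ℤ) : ℕ := Nat.card {c : ℤ × ℤ // Encl m f c}

/-- `Prob(A_n ∈ S)`: the proportion of the self-avoiding polygons of perimeter `2 n` whose area is
in `S` -/
noncomputable def prob (n : ℕ) (S : Set ℝ) : ℝ :=
  ({f : ZMod (2 * n) → ℤ × ℤ | IsLoop (2 * n) f ∧ (area (2 * n) f : ℝ) ∈ S}.ncard : ℝ) /
    ({f : ZMod (2 * n) → ℤ × ℤ | IsLoop (2 * n) f}.ncard : ℝ)

/-- `E[exp (s A_n / n)]` for the uniform self-avoiding polygon of perimeter `2 n` -/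
noncomputable def laplace (n : ℕ) (s : ℝ) : ℝ :=
  (∑ᶠ f ∈ {f : ZMod (2 * n) → ℤ × ℤ | IsLoop (2 * n) f}, Real.exp (s * area (2 * n) f / n)) /
    ({f : ZMod (2 * n) → ℤ × ℤ | IsLoop (2 * n) f}.ncard : ℝ)

/-- `ω` is an `n`-step self-avoiding walk on `ℤ²` started at the origin. -/
def IsSAW (n : ℕ) (ω : Fin (n + 1) → ℤ × ℤ) : Prop :=
  ω 0 = (0, 0) ∧
  (∀ i : Fin n, |(ω i.succ).1 - (ω i.castSucc).1| + |(ω i.succ).2 - (ω i.castSucc).2| = 1) ∧
  Function.Injective ω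

/-- `c_n`: the number of `n`-step self-avoiding walks from the origin -/
noncomputable def c (n : ℕ) : ℕ := Nat.card {ω : Fin (n + 1) → ℤ × ℤ // IsSAW n ω}

/-- `c_n(x)`: the number of `n`-step self-avoiding walks from the origin to `x` -/
noncomputable def cx (n : ℕ) (x : ℤ × ℤ) : ℕ :=
  Nat.card {ω : Fin (n + 1) → ℤ × ℤ // IsSAW n ω ∧ ω (Fin.last n) = x}

/-- the two-point function `G_z(x) = ∑_n c_n(x) z^n` -/
noncomputable def G (z : ℝ) (x : ℤ × ℤ) : ℝ := ∑' n : ℕ, (cx n x : ℝ) * z ^ n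

/-- the Wulff shape of a function `m` of the directions `x ∈ ℤ²` -/
def Wulff (m : ℤ × ℤ → ℝ) : Set (ℝ × ℝ) :=
  {h | ∀ x : ℤ × ℤ, x ≠ 0 → h.1 * x.1 + h.2 * x.2 ≤ m x}

theorem c_eq (n : ℕ) : c n = TH795.EP.c n := TH795.EP2.card_walks n

theorem cx_eq (n : ℕ) (x : ℤ × ℤ) : cx n x = TH795.EP.a n x.1 x.2 := TH795.EP2.card_walks_to n x

theorem G_eq (z : ℝ) (x y : ℤ) : G z (x, y) = Y981.L2.Gz z x y := by
  unfold G Y981.L2.Gz
  apply tsum_congr
  intro n
  rw [cx_eq]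

/-- **Theorem.** Let `A_n` be the area of the uniform self-avoiding polygon of perimeter `2 n` on
`ℤ²`, `μ = lim c_n^(1/n)` the connective constant and, for `0 < z < 1/μ` and `x ∈ ℤ²`, `x ≠ 0`,
`m_z(x) = lim_k - (1/k) log G_z(k x)` the inverse correlation length of the self-avoiding walk in
the direction `x`.  Its Wulff shape `K_z = {h : h · x ≤ m_z(x) for all x}` is a convex compact
neighbourhood of `0`; let `|K_z|` be its area.  Put
`R(u) = sup_{0 < z < 1/μ} (2 √(u |K_z|) + 2 log (μ z))`, `0 ≤ u ≤ 1/4`.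
(1) `R` is continuous and strictly increasing, `R(0) = 0`, `R(1/4) = 2 log μ`, and `R(r²)` is a
convex function of `r`.
(2) All scales: for every `0 < ε < 1` there are `C` and `n₀` such that for all `n ≥ n₀` and all
`0 < u ≤ 1/4`
`Prob(A_n ≥ u n²) ≤ exp (- n R((1 - ε) u) + C log² n)`, and
`Prob(A_n ≥ u n²) ≥ exp (- n R((1 + ε) u) - C log² n)` if `(1 + ε) u < 1/4`.
The constants do not depend on `u`: `u n²` may be of any order between `1` and `n²`.  There is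
`a > 0` such that, for all large `n`, `n R(u) ≥ √n` for all `u ≥ n^(-a / log log n)`.
(3) `(1/n) log Prob(A_n ≥ u n²) → - R(u)` for `0 < u < 1/4`, and for `0 ≤ a < b`, `a < 1/4` the
probabilities of `a n² < A_n < b n²` and of `a n² ≤ A_n ≤ b n²` have the rate `R(a)`: the
area `A_n / n²` satisfies the large deviation principle with the rate function `R` on `[0, 1/4]`.
(4) Polygons under pressure: `(1/n) log E[exp (s A_n / n)] → max_{0 ≤ u ≤ 1/4} (s u - R(u))`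
for every real `s`.
(5) Conversely the rate function of the area determines the areas of the Wulff shapes:
`2 √|K_z| = inf_{0 < u ≤ 1/4} (R(u) - 2 log (μ z)) / √u`. -/
theorem result : ∃ (μ : ℝ) (m : ℝ → ℤ × ℤ → ℝ) (R : ℝ → ℝ), 1 ≤ μ ∧
    Tendsto (fun n : ℕ => (c n : ℝ) ^ (1 / (n : ℝ))) atTop (𝓝 μ) ∧
    (∀ z : ℝ, 0 < z → z < 1 / μ → (∀ x : ℤ × ℤ, x ≠ 0 → 0 < m z x ∧
      Tendsto (fun k : ℕ => - Real.log (G z (k * x.1, k * x.2)) / k) atTop (𝓝 (m z x))) ∧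
      Convex ℝ (Wulff (m z)) ∧ IsCompact (Wulff (m z)) ∧ (0 : ℝ × ℝ) ∈ interior (Wulff (m z))) ∧
    (∀ u ∈ Icc (0 : ℝ) (1 / 4), IsLUB {y : ℝ | ∃ z : ℝ, 0 < z ∧ z < 1 / μ ∧
      y = 2 * √(u * volume.real (Wulff (m z))) + 2 * Real.log (μ * z)} (R u)) ∧
    (ContinuousOn R (Icc 0 (1 / 4)) ∧ StrictMonoOn R (Icc 0 (1 / 4)) ∧ R 0 = 0 ∧
      R (1 / 4) = 2 * Real.log μ ∧ ConvexOn ℝ (Icc 0 (1 / 2)) (fun r => R (r ^ 2))) ∧
    (∀ ε : ℝ, 0 < ε → ε < 1 → ∃ (C : ℝ) (n₀ : ℕ), 0 < C ∧ ∀ n : ℕ, n₀ ≤ n → ∀ u : ℝ, 0 < u →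
      (u ≤ 1 / 4 → prob n (Ici (u * (n : ℝ) ^ 2)) ≤
        Real.exp (-(n * R ((1 - ε) * u)) + C * Real.log n ^ 2)) ∧
      ((1 + ε) * u < 1 / 4 → Real.exp (-(n * R ((1 + ε) * u)) - C * Real.log n ^ 2) ≤
        prob n (Ici (u * (n : ℝ) ^ 2)))) ∧
    (∃ a : ℝ, 0 < a ∧ ∀ᶠ n : ℕ in atTop, ∀ u : ℝ, 0 < u → u < 1 / 4 →
      (n : ℝ) ^ (-(a / Real.log (Real.log n))) ≤ u → √(n : ℝ) ≤ n * R u) ∧
    (∀ u : ℝ, 0 < u → u < 1 / 4 →
      Tendsto (fun n : ℕ => Real.log (prob n (Ici (u * (n : ℝ) ^ 2))) / n) atTop (𝓝 (-R u))) ∧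
    (∀ a b : ℝ, 0 ≤ a → a < 1 / 4 → a < b →
      Tendsto (fun n : ℕ => Real.log (prob n (Ioo (a * (n : ℝ) ^ 2) (b * (n : ℝ) ^ 2))) / n)
        atTop (𝓝 (-R a)) ∧
      Tendsto (fun n : ℕ => Real.log (prob n (Icc (a * (n : ℝ) ^ 2) (b * (n : ℝ) ^ 2))) / n)
        atTop (𝓝 (-R a))) ∧
    (∀ s : ℝ, ∃ F : ℝ, IsGreatest {y : ℝ | ∃ u ∈ Icc (0 : ℝ) (1 / 4), y = s * u - R u} F ∧
      Tendsto (fun n : ℕ => Real.log (laplace n s) / n) atTop (𝓝 F)) ∧
    ∀ z : ℝ, 0 < z → z < 1 / μ → IsGLB {y : ℝ | ∃ u ∈ Ioc (0 : ℝ) (1 / 4),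
      y = (R u - 2 * Real.log (μ * z)) / √u} (2 * √(volume.real (Wulff (m z)))) := by
  have hmu := H981.mu_pos
  have hlogE : ∀ z : ℝ, 0 < z → z < 1 / H981.mu → 0 < -Real.log (z * H981.mu) := by
    intro z hz hz1
    have h1 : z * H981.mu < 1 := by rwa [lt_div_iff₀ hmu] at hz1
    have h2 := Real.log_neg (mul_pos hz hmu) h1
    linarith
  have hW : ∀ z : ℝ, 0 < z → z < 1 / H981.mu →
      Wulff ((fun z x => Y981.L2X.M (-Real.log (z * H981.mu)) ((x.1 : ℝ), (x.2 : ℝ))) z) =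
        H26.WF.Kc (-Real.log (z * H981.mu)) := fun z hz hz1 => H26.WF.shape (hlogE z hz hz1)
  have hinv : ∀ E : ℝ, 0 < E → ∃ z : ℝ, 0 < z ∧ z < 1 / H981.mu ∧
      -Real.log (z * H981.mu) = E := by
    intro E hE
    refine ⟨Real.exp (-E) / H981.mu, by positivity, ?_, ?_⟩
    · rw [div_lt_div_iff_of_pos_right hmu, ← Real.exp_zero]
      exact Real.exp_lt_exp.2 (by linarith)
    · rw [div_mul_cancel₀ _ hmu.ne', Real.log_exp, neg_neg]
  refine ⟨H981.mu, fun z x => Y981.L2X.M (-Real.log (z * H981.mu)) ((x.1 : ℝ), (x.2 : ℝ)),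
    H26.WF.RR, ?_, ?_, ?_, ?_, ⟨H26.WF.RR_cont, H26.WF.RR_strict, H26.WF.RR_zero,
      H26.WF.RR_quarter, ?_⟩, ?_, H26.UN.scale_ok, ?_, ?_, ?_, ?_⟩
  · have := H26.WF.log_mu_nonneg
    rwa [Real.log_nonneg_iff hmu] at this
  · refine H981.tendsto_root.congr ?_
    intro n
    rw [c_eq, TH795.EP.c_eq]
  · intro z hz hz1
    have he := hlogE z hz hz1
    refine ⟨fun x hx => ⟨Y981.L2X.M_pos he hx, ?_⟩, ?_⟩
    · refine (Y981.L2X.G_dir hz hz1 hx).congr ?_
      intro k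
      rw [G_eq]
    · rw [hW z hz hz1]
      exact H26.WF.Kc_props he
  · intro u hu
    have hs := H26.WF.sqrt_mem hu
    constructor
    · rintro _ ⟨z, hz, hz1, rfl⟩
      have h1 := H26.WF.le_rho hs.1 hs.2 (hlogE z hz hz1)
      rw [← H26.WF.RR_eq hu.1] at h1
      rw [hW z hz hz1, Real.sqrt_mul hu.1, mul_comm H981.mu z]
      unfold H26.WF.g H26.WF.V at h1
      linarith
    · intro b hb
      rw [H26.WF.RR_eq hu.1]
      apply H26.WF.rho_le
      intro E hE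
      obtain ⟨z, hz, hz1, rfl⟩ := hinv E hE
      have h1 := hb ⟨z, hz, hz1, rfl⟩
      rw [hW z hz hz1, Real.sqrt_mul hu.1, mul_comm H981.mu z] at h1
      unfold H26.WF.g H26.WF.V
      linarith
  · refine H26.WF.rho_convex.congr ?_
    intro r hr
    exact H26.WF.rho_eq hr.1
  · intro ε hε hε1
    obtain ⟨C1, hC1, h1⟩ := H26.UN.unif_up hε hε1
    obtain ⟨C2, n₀, hC2, hn₀, h2⟩ := H26.UN.unif_low hε hε1
    refine ⟨C1 + C2, n₀, by linarith, ?_⟩
    intro n hn u hu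
    have hL : 0 ≤ Real.log n ^ 2 := sq_nonneg _
    have e1 := mul_nonneg hC1.le hL
    have e2 := mul_nonneg hC2.le hL
    refine ⟨fun hu4 => ?_, fun hu4 => ?_⟩
    · refine (h1 n (by omega) u hu hu4).trans (Real.exp_le_exp.2 ?_)
      linarith
    · refine le_trans (Real.exp_le_exp.2 ?_) (h2 n hn u hu hu4)
      linarith
  · intro u hu hu4
    exact H26.WF.tendsto_par hu hu4
  · intro a b ha ha4 hab
    exact ⟨H26.WF.interval ha ha4 hab (fun n => le_rfl) (fun n x hx => hx.1.le),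
      H26.WF.interval ha ha4 hab (fun n => Ioo_subset_Icc_self) (fun n x hx => hx.1)⟩
  · intro s
    obtain ⟨u, hu, hmax⟩ := isCompact_Icc.exists_isMaxOn (⟨0, by norm_num⟩ :
      (Icc (0 : ℝ) (1 / 4)).Nonempty) (H26.WF.FE_cont s)
    have hFE : H26.WF.FE s = s * u - H26.WF.RR u := by
      apply le_antisymm
      · unfold H26.WF.FE
        refine csSup_le ⟨_, mem_image_of_mem _ hu⟩ ?_
        rintro _ ⟨v, hv, rfl⟩
        exact hmax hv
      · exact H26.WF.le_FE s hu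
    refine ⟨H26.WF.FE s, ⟨⟨u, hu, hFE⟩, ?_⟩, H26.WF.pressure s⟩
    rintro _ ⟨v, hv, rfl⟩
    exact H26.WF.le_FE s hv
  · intro z hz hz1
    rw [hW z hz hz1]
    have h := H26.WF.dual (hlogE z hz hz1)
    have e : {y : ℝ | ∃ u ∈ Ioc (0 : ℝ) (1 / 4),
        y = (H26.WF.RR u - 2 * Real.log (H981.mu * z)) / √u} =
        (fun u : ℝ => (H26.WF.RR u + 2 * -Real.log (z * H981.mu)) / √u) '' Ioc 0 (1 / 4) := by
      ext y
      constructor
      · rintro ⟨u, hu, rfl⟩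
        refine ⟨u, hu, ?_⟩
        simp only [mul_comm H981.mu z]
        ring
      · rintro ⟨u, hu, rfl⟩
        refine ⟨u, hu, ?_⟩
        simp only [mul_comm H981.mu z]
        ring
    rw [e]
    exact h

end Pool.Agent.Results.MP_f6626d_co.WulffRateAllScales
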